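import Pool.Agent.R131.LS.Main

/-!
# The main inequality, with the mean of the inverse of the size
-/

set_option autoImplicit false

namespace Pool.Agent.R131.LT

open Finset TH966.AK Pool.Agent.R131.LS
open scoped Classical

variable {α σ : Type} {Y : Sys α σ} {x : ℝ} {N : ℕ}

/-- **The main inequality.** -/
theorem main (H : Good Y x N) {κ η t : ℝ} (hκ : 0 < κ) (hη : 0 ≤ η) (ht : 0 < t)
    (F : α → ℝ) (g : ℕ → ℝ)
    (hF : ∀ m, ∀ w ∈ Y.K m, 0 ≤ F w ∧ F w ≤ 1) (hg : ∀ m, 0 ≤ g m ∧ g m ≤ 1)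
    (hFη : ∀ m, ∀ w ∈ Y.K m, ∀ q ∈ Y.S w, |F (Y.ins w q) - F w| ≤ η) :
    |Ex Y x N (fun m w => F w * g m) - Ex Y x N (fun m w => F w * g (m + Y.s))| ≤
      2 * Ex Y x N (bd Y κ) + (Y.C * (Y.C + κ * Y.s) / κ ^ 2 *
        Ex Y x N (fun m _ => 1 / ((m : ℝ) + 1)) + Y.C * η / κ * Ex Y x N (fun _ _ => 1)) +
        1 / κ * (t / 2 * Ex Y x N (fun _ _ => 1) + 1 / (2 * t) * (2 * Y.C ^ 2 * (1 + Y.s) *
        Ex Y x N (fun m _ => 1 / ((m : ℝ) + 1)))) := by
  have hx0 := H.x0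
  have hC : (0 : ℝ) ≤ Y.C := Nat.cast_nonneg _
  have hs : (0 : ℝ) ≤ Y.s := Nat.cast_nonneg _
  have hp0 : 0 ≤ x ^ Y.s := by positivity
  have hp1 : x ^ Y.s ≤ 1 := pow_le_one₀ hx0.le H.x1
  -- first and last steps
  have s1 : ∀ g' : ℕ → ℝ, (∀ m, 0 ≤ g' m ∧ g' m ≤ 1) →
      |Ex Y x N (fun m w => F w * g' m) -
        Ex Y x N (fun m w => ((Y.B w).card : ℝ) * ph Y κ m w * (F w * g' m))| ≤
      Ex Y x N (bd Y κ) := by
    intro g' hg'
    rw [← Ex_sub]
    refine (Ex_abs hx0 _).trans (Ex_mono hx0 fun m w hw => ?_)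
    have e : F w * g' m - ((Y.B w).card : ℝ) * ph Y κ m w * (F w * g' m) =
        (1 - ((Y.B w).card : ℝ) * ph Y κ m w) * (F w * g' m) := by ring
    rw [e, abs_mul]
    obtain ⟨h1, h2⟩ := hF m w hw
    obtain ⟨h3, h4⟩ := hg' m
    have h5 : |F w * g' m| ≤ 1 := by
      rw [abs_of_nonneg (mul_nonneg h1 h3)]
      nlinarith
    have h6 := ph_mul (Y := Y) hκ m w
    calc _ ≤ bd Y κ m w * 1 :=
          mul_le_mul h6 h5 (abs_nonneg _) ((abs_nonneg _).trans h6)
      _ = _ := mul_one _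
  have t1 := s1 g hg
  have t5 := s1 (fun m => g (m + Y.s)) (fun m => hg _)
  -- exchange
  have t2 : Ex Y x N (fun m w => ((Y.B w).card : ℝ) * ph Y κ m w * (F w * g m)) =
      x ^ Y.s * Ex Y x N (fun m w => ∑ q ∈ Y.S w, ph Y κ (m + Y.s) (Y.ins w q) *
        (F (Y.ins w q) * g (m + Y.s))) := by
    rw [← exch H (fun m _ w => ph Y κ m w * (F w * g m))]
    congr 1
    funext m w
    rw [sum_const, nsmul_eq_mul]
    ring
  have t3 : |x ^ Y.s * Ex Y x N (fun m w => ∑ q ∈ Y.S w, ph Y κ (m + Y.s) (Y.ins w q) *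
        (F (Y.ins w q) * g (m + Y.s))) -
      x ^ Y.s * Ex Y x N (fun m w => ((Y.S w).card : ℝ) * (ph Y κ m w *
        (F w * g (m + Y.s))))| ≤
      Y.C * (Y.C + κ * Y.s) / κ ^ 2 * Ex Y x N (fun m _ => 1 / ((m : ℝ) + 1)) +
        Y.C * η / κ * Ex Y x N (fun _ _ => 1) := by
    rw [← mul_sub, ← Ex_sub, abs_mul, abs_of_nonneg hp0, ← Ex_mul, ← Ex_mul, ← Ex_add]
    have h1 : |Ex Y x N (fun m w => ∑ q ∈ Y.S w, ph Y κ (m + Y.s) (Y.ins w q) *
        (F (Y.ins w q) * g (m + Y.s)) - ((Y.S w).card : ℝ) * (ph Y κ m w *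
        (F w * g (m + Y.s))))| ≤ Ex Y x N (fun m _ =>
        Y.C * (Y.C + κ * Y.s) / κ ^ 2 * (1 / ((m : ℝ) + 1)) + Y.C * η / κ * 1) := by
      refine (Ex_abs hx0 _).trans (Ex_mono hx0 fun m w hw => ?_)
      rw [← nsmul_eq_mul, ← sum_const, ← sum_sub_distrib, mul_one]
      have ha0 : 0 < (m : ℝ) + 1 := by positivity
      have h2 : ∀ q ∈ Y.S w, |ph Y κ (m + Y.s) (Y.ins w q) * (F (Y.ins w q) * g (m + Y.s)) -
          ph Y κ m w * (F w * g (m + Y.s))| ≤
          (Y.C + κ * Y.s) / (κ ^ 2 * ((m : ℝ) + 1) ^ 2) + η / (κ * ((m : ℝ) + 1)) := by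
        intro q hq
        have e : ph Y κ (m + Y.s) (Y.ins w q) * (F (Y.ins w q) * g (m + Y.s)) -
            ph Y κ m w * (F w * g (m + Y.s)) =
            (ph Y κ (m + Y.s) (Y.ins w q) - ph Y κ m w) * (F (Y.ins w q) * g (m + Y.s)) +
            ph Y κ m w * ((F (Y.ins w q) - F w) * g (m + Y.s)) := by ring
        rw [e]
        refine (abs_add_le _ _).trans ?_
        rw [abs_mul (ph Y κ (m + Y.s) (Y.ins w q) - ph Y κ m w), abs_mul (ph Y κ m w),
          abs_mul (F (Y.ins w q) - F w)]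
        obtain ⟨h3, h4⟩ := hF _ _ (Y.ins_K m w q hw hq)
        obtain ⟨h5, h6⟩ := hg (m + Y.s)
        have h7 := ph_ins (Y := Y) hκ hw hq
        have h8 := hFη m w hw q hq
        have h9 := ph_pos (Y := Y) hκ m w
        have h10 := ph_le (Y := Y) hκ m w
        refine add_le_add ?_ ?_
        · calc _ ≤ (Y.C + κ * Y.s) / (κ ^ 2 * ((m : ℝ) + 1) ^ 2) * 1 := by
                refine mul_le_mul h7 ?_ (abs_nonneg _) (by positivity)
                rw [abs_of_nonneg (mul_nonneg h3 h5)]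
                nlinarith
            _ = _ := mul_one _
        · rw [abs_of_pos h9, abs_of_nonneg h5]
          calc ph Y κ m w * (|F (Y.ins w q) - F w| * g (m + Y.s)) ≤
                1 / (κ * ((m : ℝ) + 1)) * (η * 1) := by
                refine mul_le_mul h10 ?_ (by positivity) (by positivity)
                exact mul_le_mul h8 h6 h5 hη
            _ = _ := by ring
      refine (abs_sum_le_sum_abs _ _).trans ((sum_le_card_nsmul _ _ _ h2).trans ?_)
      rw [nsmul_eq_mul]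
      have h3 : ((Y.S w).card : ℝ) ≤ Y.C * (m + 1) := by
        exact_mod_cast Y.S_le m w hw
      refine (mul_le_mul_of_nonneg_right h3 (by positivity)).trans ?_
      rw [mul_add]
      refine add_le_add ?_ ?_
      · have e : Y.C * ((m : ℝ) + 1) * ((Y.C + κ * Y.s) / (κ ^ 2 * ((m : ℝ) + 1) ^ 2)) =
            Y.C * (Y.C + κ * Y.s) / κ ^ 2 * (1 / ((m : ℝ) + 1)) := by
          field_simp
        rw [e]
      · apply le_of_eq
        field_simp
    have h0 : 0 ≤ |Ex Y x N (fun m w => ∑ q ∈ Y.S w, ph Y κ (m + Y.s) (Y.ins w q) *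
        (F (Y.ins w q) * g (m + Y.s)) - ((Y.S w).card : ℝ) * (ph Y κ m w *
        (F w * g (m + Y.s))))| := abs_nonneg _
    exact (mul_le_of_le_one_left h0 hp1).trans h1
  -- comparison of the numbers of moves
  have t4 : |x ^ Y.s * Ex Y x N (fun m w => ((Y.S w).card : ℝ) * (ph Y κ m w *
        (F w * g (m + Y.s)))) -
      Ex Y x N (fun m w => ((Y.B w).card : ℝ) * ph Y κ m w * (F w * g (m + Y.s)))| ≤
      1 / κ * (t / 2 * Ex Y x N (fun _ _ => 1) + 1 / (2 * t) * (2 * Y.C ^ 2 * (1 + Y.s) *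
        Ex Y x N (fun m _ => 1 / ((m : ℝ) + 1)))) := by
    rw [← Ex_mul (x ^ Y.s), ← Ex_sub]
    have h1 : |Ex Y x N (fun m w => x ^ Y.s * (((Y.S w).card : ℝ) * (ph Y κ m w *
        (F w * g (m + Y.s)))) - ((Y.B w).card : ℝ) * ph Y κ m w * (F w * g (m + Y.s)))| ≤
        Ex Y x N (fun m w => 1 / κ * (t / 2) * 1 +
          1 / κ * (1 / (2 * t)) * (dd Y x w ^ 2 * (1 / ((m : ℝ) + 1) ^ 2))) := by
      refine (Ex_abs hx0 _).trans (Ex_mono hx0 fun m w hw => ?_)
      have e : x ^ Y.s * (((Y.S w).card : ℝ) * (ph Y κ m w * (F w * g (m + Y.s)))) -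
          ((Y.B w).card : ℝ) * ph Y κ m w * (F w * g (m + Y.s)) =
          dd Y x w * ph Y κ m w * (F w * g (m + Y.s)) := by
        unfold dd
        ring
      rw [e, abs_mul, abs_mul]
      obtain ⟨h3, h4⟩ := hF m w hw
      obtain ⟨h5, h6⟩ := hg (m + Y.s)
      have h9 := ph_pos (Y := Y) hκ m w
      have h10 := ph_le (Y := Y) hκ m w
      have ha0 : 0 < (m : ℝ) + 1 := by positivity
      have h11 : |F w * g (m + Y.s)| ≤ 1 := by
        rw [abs_of_nonneg (mul_nonneg h3 h5)]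
        nlinarith
      rw [abs_of_pos h9]
      have h12 : |dd Y x w| * ph Y κ m w * |F w * g (m + Y.s)| ≤
          1 / κ * (|dd Y x w| / ((m : ℝ) + 1)) := by
        calc _ ≤ |dd Y x w| * (1 / (κ * ((m : ℝ) + 1))) * 1 := by
              refine mul_le_mul (mul_le_mul_of_nonneg_left h10 (abs_nonneg _)) h11
                (abs_nonneg _) (by positivity)
          _ = _ := by field_simp
      refine h12.trans ?_
      have h13 : |dd Y x w| / ((m : ℝ) + 1) ≤ t / 2 +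
          1 / (2 * t) * (dd Y x w ^ 2 * (1 / ((m : ℝ) + 1) ^ 2)) := by
        set z := |dd Y x w| / ((m : ℝ) + 1) with hz
        have e2 : dd Y x w ^ 2 * (1 / ((m : ℝ) + 1) ^ 2) = z ^ 2 := by
          rw [hz, div_pow, sq_abs]
          ring
        rw [e2]
        have h14 : 0 ≤ (z - t) ^ 2 / (2 * t) := by positivity
        have e3 : (z - t) ^ 2 / (2 * t) = t / 2 + 1 / (2 * t) * z ^ 2 - z := by
          field_simp
          ring
        linarith
      calc 1 / κ * (|dd Y x w| / ((m : ℝ) + 1)) ≤ 1 / κ * (t / 2 +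
            1 / (2 * t) * (dd Y x w ^ 2 * (1 / ((m : ℝ) + 1) ^ 2))) :=
            mul_le_mul_of_nonneg_left h13 (by positivity)
        _ = _ := by ring
    refine h1.trans ?_
    rw [Ex_add, Ex_mul, Ex_mul]
    have h2 := second H
    have h4 : 1 / κ * (1 / (2 * t)) * Ex Y x N (fun m w => dd Y x w ^ 2 *
        (1 / ((m : ℝ) + 1) ^ 2)) ≤ 1 / κ * (1 / (2 * t)) * (2 * Y.C ^ 2 * (1 + Y.s) *
          Ex Y x N (fun m _ => 1 / ((m : ℝ) + 1))) :=
      mul_le_mul_of_nonneg_left h2 (by positivity)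
    refine (add_le_add le_rfl h4).trans (le_of_eq ?_)
    ring
  rw [t2] at t1
  have a1 := abs_le.1 t1
  have a3 := abs_le.1 t3
  have a4 := abs_le.1 t4
  have a5 := abs_le.1 t5
  rw [abs_le]
  constructor
  · nlinarith [a1.1, a1.2, a3.1, a3.2, a4.1, a4.2, a5.1, a5.2]
  · nlinarith [a1.1, a1.2, a3.1, a3.2, a4.1, a4.2, a5.1, a5.2]

end Pool.Agent.R131.LT
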